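import Pool.Agent.Helper64.FL.CanHyp
import Pool.Agent.Helper85.FL.FL3
import Pool.Agent.Helper53.FL.LastV

/-!
# FL-9: the canonical cocone, the cocone of a sieve
-/

open CategoryTheory MonoidalCategory Opposite

set_option autoImplicit false

namespace Pool.Agent.Helper64.FLCan

open FL

section

variable {A : Type} [SmallCategory A]

theorem canCone_we (C : SP A) (a : Aᵒᵖ) : WE ((canCone C).app a) :=
  canCone_we_of (fun hf hg => Helper85FL.we_comp hf hg) (fun h => Helper85FL.we_of_hoEq h)
    Helper53FL.lastMap_we C a

/-- The factorisation of the cocone of a sieve through the sieve. -/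
theorem svCone_factor {a : A} (S : Sieve a) : ∃ π : Hoco (svDiag S) ⟶ disc S.functor,
    π ≫ sieveIncl S = svCone S ∧ ∀ b, WE (π.app b) :=
  svCone_factor_of (fun hf hg => Helper85FL.we_comp hf hg) (fun h => Helper85FL.we_of_hoEq h) S

end

end Pool.Agent.Helper64.FLCan
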