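import Pool.Agent.Helper64.FL.Nerve

/-!
# FL-9, part 2: the canonical cocone of a simplicial presheaf
-/

open CategoryTheory MonoidalCategory Opposite

set_option autoImplicit false

namespace Pool.Agent.Helper64.FLCan

open FL

section

variable {A : Type} [SmallCategory A]

lemma can_aux' (C : SP A) {a a' b : A} {m m' : SimplexCategory}
    (x : (C.obj (op a)).obj (op m)) (x' : (C.obj (op a')).obj (op m')) (f : a ⟶ a') (g : m ⟶ m')
    (h : (C.map f.op).app _ ((C.obj (op a')).map g.op x') = x) (u : b ⟶ a) (u' : b ⟶ a')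
    (hu : u ≫ f = u') :
    (C.obj (op b)).map g.op ((C.map u'.op).app _ x') = (C.map u.op).app _ x := by
  subst h hu
  rw [op_comp, sp_comp, ← sp_nat, ← sp_nat]

/-- `(e, u) ↦ (m, u^* x)`. -/
def canF (C : SP A) (b : A) : Un (El.toA C) b ⥤ Simp (C.obj (op b)) where
  obj z := ⟨z.e.m, (C.map (Quiver.Hom.op (z.u : b ⟶ z.e.a))).app _ z.e.x⟩
  map g := ⟨g.1.g, can_aux' C _ _ _ _ g.1.h _ _ g.2⟩
  map_id _ := rfl
  map_comp _ _ := rfl

/-- `(m, y) ↦ ((b, m, y), 𝟙)`. -/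
def canG (C : SP A) (b : A) : Simp (C.obj (op b)) ⥤ Un (El.toA C) b where
  obj z := ⟨⟨b, z.m, z.x⟩, 𝟙 b⟩
  map g := ⟨⟨𝟙 b, g.1, (sp_id C _).trans g.2⟩, Category.comp_id (𝟙 b)⟩
  map_id _ := rfl
  map_comp _ _ := Subtype.ext (El.Hom.ext (Category.comp_id (𝟙 b)).symm rfl)

def canη (C : SP A) (b : A) : canF C b ⋙ canG C b ⟶ 𝟭 _ where
  app z := ⟨⟨z.u, 𝟙 _, congrArg _ (sset_id _ _)⟩, Category.id_comp (z.u : b ⟶ z.e.a)⟩
  naturality _ z' g := Subtype.ext (El.Hom.ext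
    ((Category.id_comp (z'.u : b ⟶ z'.e.a)).trans g.2.symm)
    ((Category.comp_id _).trans (Category.id_comp _).symm))

def canε (C : SP A) (b : A) : canG C b ⋙ canF C b ⟶ 𝟭 _ where
  app _ := ⟨𝟙 _, (sset_id _ _).trans (sp_id C _).symm⟩
  naturality _ _ _ := Subtype.ext ((Category.comp_id _).trans (Category.id_comp _).symm)

lemma canCone_fac (C : SP A) (b : A) : (canCone C).app (op b) =
    (toUn (El.toA C) b).hom ≫ nvMap (canF C b) ≫ lastMap (C.obj (op b)) := by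
  ext k (w : HS (canDiag C) (op b) k)
  exact sp_nat C _ _ _

end

end Pool.Agent.Helper64.FLCan
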