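import Pool.Agent.Helper64.FL.Nerve

/-!
# FL-9, part 3: the canonical cocone of a sieve
-/

open CategoryTheory MonoidalCategory Opposite

set_option autoImplicit false

namespace Pool.Agent.Helper64.FLCan

open FL

section

/-- The nerve of a discrete category. -/
def nvDisc (T : Type) : Nv (Discrete T) ≅ (Functor.const SimplexCategoryᵒᵖ).obj T where
  hom :=
    { app := fun k => ↾ fun (τ : Chain (Discrete T) k.unop) => (τ.obj 0).as
      naturality := fun k l α => by
        ext (τ : Chain (Discrete T) k.unop)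
        exact (Discrete.eq_of_hom (τ.map 0 (α.unop.toOrderHom 0) (Fin.zero_le _))).symm }
  inv :=
    { app := fun k => ↾ fun (v : T) =>
        (⟨fun _ => ⟨v⟩, fun _ _ _ => 𝟙 _, fun _ => rfl, fun _ _ _ _ _ => Category.comp_id _⟩ :
          Chain (Discrete T) k.unop)
      naturality := fun _ _ _ => rfl }
  hom_inv_id := by
    ext k (τ : Chain (Discrete T) k.unop)
    refine chain_ext_thin (J := Discrete T) fun i => ?_
    exact Discrete.ext (Discrete.eq_of_hom (τ.map 0 i (Fin.zero_le _)))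
  inv_hom_id := rfl

variable {A : Type} [SmallCategory A] {a : A}

lemma sv_aux {b x x' : A} (u : b ⟶ x) (u' : b ⟶ x') (g : x ⟶ x') (f : x ⟶ a) (f' : x' ⟶ a)
    (h : u ≫ g = u') (h' : g ≫ f' = f) : u ≫ f = u' ≫ f' := by
  rw [← h, ← h', Category.assoc]

/-- `(x, u) ↦ u ≫ x.f`. -/
def svF (S : Sieve a) (b : A) : Un (svProj S) b ⥤ Discrete (S.functor.obj (op b)) where
  obj z := ⟨⟨(z.u : b ⟶ z.e.b) ≫ z.e.f, S.downward_closed z.e.mem z.u⟩⟩
  map g := Discrete.eqToHom (Subtype.ext (sv_aux _ _ _ _ _ g.2 g.1.2))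
  map_id _ := Subsingleton.elim _ _
  map_comp _ _ := Subsingleton.elim _ _

/-- `v ↦ ((b, v), 𝟙)`. -/
def svG (S : Sieve a) (b : A) : Discrete (S.functor.obj (op b)) ⥤ Un (svProj S) b where
  obj v := ⟨⟨b, v.as.1, v.as.2⟩, 𝟙 b⟩
  map g := ⟨⟨𝟙 b, (Category.id_comp _).trans
    (congrArg Subtype.val (Discrete.eq_of_hom g)).symm⟩, Category.comp_id (𝟙 b)⟩
  map_id _ := rfl
  map_comp _ _ := Subtype.ext (Subtype.ext (Category.comp_id (𝟙 b)).symm)

def svη (S : Sieve a) (b : A) : svF S b ⋙ svG S b ⟶ 𝟭 _ where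
  app z := ⟨⟨z.u, rfl⟩, Category.id_comp (z.u : b ⟶ z.e.b)⟩
  naturality _ z' g := Subtype.ext (Subtype.ext
    ((Category.id_comp (z'.u : b ⟶ z'.e.b)).trans g.2.symm))

def svε (S : Sieve a) (b : A) : svG S b ⋙ svF S b ⟶ 𝟭 _ where
  app v := Discrete.eqToHom (Subtype.ext (Category.id_comp v.as.1))
  naturality _ _ _ := Subsingleton.elim _ _

/-- The factorisation of the cocone of a sieve through the sieve. -/
def svPi (S : Sieve a) : Hoco (svDiag S) ⟶ disc S.functor where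
  app b :=
    { app := fun k => ↾ fun (w : HS (svDiag S) b k) =>
        (⟨(w.x : b.unop ⟶ (w.σ.obj 0).b) ≫ (w.σ.obj 0).f,
          S.downward_closed (w.σ.obj 0).mem _⟩ : S.functor.obj b)
      naturality := fun k l α => by
        ext (w : HS (svDiag S) b k)
        refine Subtype.ext ?_
        refine (Category.assoc (obj := A) (HS.x w) ((HS.σ w).zeroTo α.unop).1 _).trans ?_
        exact congrArg (fun t => CategoryStruct.comp (obj := A) (HS.x w) t)
          ((HS.σ w).zeroTo α.unop).2 }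
  naturality b b' f := by
    ext k w
    exact Subtype.ext (Category.assoc (obj := A) _ _ _)

lemma svPi_incl (S : Sieve a) : svPi S ≫ sieveIncl S = svCone S := rfl

lemma svPi_fac (S : Sieve a) (b : A) : (svPi S).app (op b) =
    (toUn (svProj S) b).hom ≫ nvMap (svF S b) ≫ (nvDisc _).hom := by
  ext k (w : HS (svDiag S) (op b) k)
  refine Subtype.ext ?_
  show (w.x : b ⟶ (w.σ.obj 0).b) ≫ (w.σ.obj 0).f =
    ((w.x : b ⟶ (w.σ.obj 0).b) ≫ (w.σ.map 0 0 (Fin.zero_le _)).1) ≫ (w.σ.obj 0).f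
  refine (congrArg (· ≫ (w.σ.obj 0).f) (Category.comp_id (w.x : b ⟶ (w.σ.obj 0).b))).symm.trans ?_
  refine congrArg (fun v : (w.σ.obj 0).b ⟶ (w.σ.obj 0).b =>
    ((w.x : b ⟶ (w.σ.obj 0).b) ≫ v) ≫ (w.σ.obj 0).f) ?_
  exact (congrArg Subtype.val (w.σ.map_id 0)).symm

end

end Pool.Agent.Helper64.FLCan
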