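import Pool.Agent.Helper64.FL.Can
import Pool.Agent.Helper64.FL.Sv

/-!
# FL-9: the canonical cocone, the cocone of a sieve (facts on weak equivalences as hypotheses)
-/

open CategoryTheory MonoidalCategory Opposite

set_option autoImplicit false

namespace Pool.Agent.Helper64.FLCan

open FL

theorem hoEq_iso {X Y : SSet.{0}} (e : X ≅ Y) : HoEq e.hom :=
  ⟨e.inv, ⟨SSet.RelativeMorphism.Homotopy.ofEq (by rw [e.hom_inv_id])⟩,
    ⟨SSet.RelativeMorphism.Homotopy.ofEq (by rw [e.inv_hom_id])⟩⟩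

section

variable {A : Type} [SmallCategory A]
  (hc : ∀ {X Y Z : SSet.{0}} {f : X ⟶ Y} {g : Y ⟶ Z}, WE f → WE g → WE (f ≫ g))
  (hh : ∀ {X Y : SSet.{0}} {f : X ⟶ Y}, HoEq f → WE f)

include hc hh

theorem canCone_we_of (hl : ∀ K : SSet.{0}, WE (lastMap K)) (C : SP A) (a : Aᵒᵖ) :
    WE ((canCone C).app a) := by
  obtain ⟨b⟩ := a
  refine (canCone_fac C b).symm ▸ hc (hh (hoEq_iso _)) (hc (hh ?_) (hl _))
  exact nv_hoEq (canη C b) (canε C b)

theorem svCone_factor_of {a : A} (S : Sieve a) : ∃ π : Hoco (svDiag S) ⟶ disc S.functor,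
    π ≫ sieveIncl S = svCone S ∧ ∀ b, WE (π.app b) := by
  refine ⟨svPi S, svPi_incl S, fun b => ?_⟩
  obtain ⟨b⟩ := b
  refine (svPi_fac S b).symm ▸ hc (hh (hoEq_iso _)) (hc (hh ?_) (hh (hoEq_iso _)))
  exact nv_hoEq (svη S b) (svε S b)

end

end Pool.Agent.Helper64.FLCan
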