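import Pool.Agent.Helper58.FL.Tools

/-!
# FL-9, part 1: nerves of categories and homotopies

An elementwise construction of simplicial homotopies, and the homotopy of nerves attached to a
natural transformation.
-/

open CategoryTheory MonoidalCategory Opposite

set_option autoImplicit false

namespace Pool.Agent.Helper64.FLCan

open FL

/-- The constant map `[k] ⟶ [1]`. -/
def cst (k : SimplexCategory) (e : Fin 2) : k ⟶ SimplexCategory.mk 1 :=
  SimplexCategory.Hom.mk ⟨fun _ => e, fun _ _ _ => le_refl _⟩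

/-- Elementwise construction of homotopies. -/
theorem htpy_of_elem {X Y : SSet.{0}} (f g : X ⟶ Y)
    (H : ∀ (k : SimplexCategoryᵒᵖ) (_ : k.unop ⟶ SimplexCategory.mk 1) (_ : X.obj k), Y.obj k)
    (nat : ∀ {k l : SimplexCategoryᵒᵖ} (α : k ⟶ l) (t : k.unop ⟶ SimplexCategory.mk 1) (x : X.obj k),
      H l (α.unop ≫ t) (X.map α x) = Y.map α (H k t x))
    (h0 : ∀ (k : SimplexCategoryᵒᵖ) (x : X.obj k), H k (cst _ 0) x = f.app k x)
    (h1 : ∀ (k : SimplexCategoryᵒᵖ) (x : X.obj k), H k (cst _ 1) x = g.app k x) :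
    Htpy f g := by
  let h : X ⊗ SSet.stdSimplex.obj (SimplexCategory.mk 1) ⟶ Y :=
    { app := fun k => ↾ fun (z : X.obj k × (SSet.stdSimplex.obj (SimplexCategory.mk 1) : SSet.{0}).obj k) =>
        H k (SSet.stdSimplex.objEquiv z.2) z.1
      naturality := fun k l α => by
        ext ⟨x, y⟩
        exact nat α _ x }
  refine ⟨SSet.RelativeMorphism.Homotopy.mk h ?_ ?_ ?_⟩
  · ext k x
    refine Eq.trans ?_ (h0 k x)
    show H k _ x = _
    congr 1
  · ext k x
    refine Eq.trans ?_ (h1 k x)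
    show H k _ x = _
    congr 1
  · ext k ⟨⟨x, hx⟩, y⟩
    exact hx.elim

section Nerve

variable {I J : Type} [SmallCategory I] [SmallCategory J]

/-- The map of nerves induced by a functor. -/
def nvMap (F : I ⥤ J) : Nv I ⟶ Nv J where
  app k := ↾ fun (σ : Chain I k.unop) => (σ.push F : Chain J k.unop)
  naturality _ _ _ := rfl

/-- `F₀` on `0`, `F₁` on `1`. -/
def pick (F₀ F₁ : I ⥤ J) : Fin 2 → I → J
  | 0, x => F₀.obj x
  | 1, x => F₁.obj x

/-- Morphisms between the values of `pick`. -/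
def pickMap {F₀ F₁ : I ⥤ J} (η : F₀ ⟶ F₁) :
    (a b : Fin 2) → a ≤ b → {x y : I} → (x ⟶ y) → (pick F₀ F₁ a x ⟶ pick F₀ F₁ b y)
  | 0, 0, _, _, _, f => F₀.map f
  | 0, 1, _, _, y, f => F₀.map f ≫ η.app y
  | 1, 1, _, _, _, f => F₁.map f
  | 1, 0, h, _, _, _ => absurd h (by decide)

lemma pickMap_id {F₀ F₁ : I ⥤ J} (η : F₀ ⟶ F₁) : (a : Fin 2) → (h : a ≤ a) → (x : I) →
    pickMap η a a h (𝟙 x) = 𝟙 _
  | 0, _, x => F₀.map_id x
  | 1, _, x => F₁.map_id x

lemma pickMap_comp {F₀ F₁ : I ⥤ J} (η : F₀ ⟶ F₁) :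
    (a b c : Fin 2) → (h : a ≤ b) → (h' : b ≤ c) → {x y z : I} → (f : x ⟶ y) → (g : y ⟶ z) →
    pickMap η a b h f ≫ pickMap η b c h' g = pickMap η a c (h.trans h') (f ≫ g)
  | 0, 0, 0, _, _, _, _, _, f, g => (F₀.map_comp f g).symm
  | 0, 0, 1, _, _, _, _, _, f, g => by
      show F₀.map f ≫ F₀.map g ≫ η.app _ = F₀.map (f ≫ g) ≫ η.app _
      rw [F₀.map_comp, Category.assoc]
  | 0, 1, 1, _, _, _, _, _, f, g => by
      show (F₀.map f ≫ η.app _) ≫ F₁.map g = F₀.map (f ≫ g) ≫ η.app _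
      rw [F₀.map_comp, Category.assoc, Category.assoc, η.naturality]
  | 1, 1, 1, _, _, _, _, _, f, g => (F₁.map_comp f g).symm
  | 1, 0, 0, h, _, _, _, _, _, _ => absurd h (by decide)
  | 1, 0, 1, h, _, _, _, _, _, _ => absurd h (by decide)
  | 0, 1, 0, _, h, _, _, _, _, _ => absurd h (by decide)
  | 1, 1, 0, _, h, _, _, _, _, _ => absurd h (by decide)

/-- The chain `F₀ x_0 ⟶ … ⟶ F₀ x_r ⟶ F₁ x_{r+1} ⟶ … ⟶ F₁ x_k`. -/
def mixChain {F₀ F₁ : I ⥤ J} (η : F₀ ⟶ F₁) {k : SimplexCategory} (t : k ⟶ SimplexCategory.mk 1)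
    (σ : Chain I k) : Chain J k where
  obj i := pick F₀ F₁ (t.toOrderHom i) (σ.obj i)
  map i j h := pickMap η _ _ (t.toOrderHom.monotone h) (σ.map i j h)
  map_id i := by
    rw [σ.map_id]
    exact pickMap_id η _ _ _
  map_comp i j l h h' := by
    refine (pickMap_comp η _ _ _ _ _ _ _).trans ?_
    rw [σ.map_comp]

theorem htpy_nv {F₀ F₁ : I ⥤ J} (η : F₀ ⟶ F₁) : Htpy (nvMap F₀) (nvMap F₁) :=
  htpy_of_elem _ _ (fun _ t (σ : Chain I _) => mixChain η t σ) (fun _ _ _ => rfl)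
    (fun _ _ => rfl) (fun _ _ => rfl)

theorem nv_hoEq {F : I ⥤ J} {G : J ⥤ I} (η : F ⋙ G ⟶ 𝟭 I) (ε : G ⋙ F ⟶ 𝟭 J) :
    HoEq (nvMap F) :=
  ⟨nvMap G, htpy_nv η, htpy_nv ε⟩

/-- Chains in a thin category are determined by their objects. -/
lemma chain_ext_thin [Quiver.IsThin J] {k : SimplexCategory} {σ τ : Chain J k}
    (h : ∀ i, σ.obj i = τ.obj i) : σ = τ := by
  obtain ⟨o, m, h1, h2⟩ := σ
  obtain ⟨o', m', h1', h2'⟩ := τ
  obtain rfl : o = o' := funext h
  have : m = m' := by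
    funext i j hij
    exact Subsingleton.elim _ _
  subst this
  rfl

end Nerve

section Under

variable {A E : Type} [SmallCategory A] [SmallCategory E]

/-- The comma category of pairs `(e, u : b ⟶ P e)`. -/
structure Un (P : E ⥤ A) (b : A) : Type where
  e : E
  u : b ⟶ P.obj e

instance (P : E ⥤ A) (b : A) : SmallCategory (Un P b) where
  Hom x y := { g : x.e ⟶ y.e // x.u ≫ P.map g = y.u }
  id x := ⟨𝟙 _, by rw [P.map_id, Category.comp_id]⟩
  comp {x y z} g h := ⟨g.1 ≫ h.1, by rw [P.map_comp, ← Category.assoc, g.2, h.2]⟩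
  id_comp g := Subtype.ext (Category.id_comp _)
  comp_id g := Subtype.ext (Category.comp_id _)
  assoc g h k := Subtype.ext (Category.assoc _ _ _)

/-- The projection to `E`. -/
@[simps]
def Un.toE (P : E ⥤ A) (b : A) : Un P b ⥤ E where
  obj x := x.e
  map g := g.1

/-- The chain in `Un P b` given by a chain in `E` and a compatible family of maps. -/
def unChain {P : E ⥤ A} {b : A} {k : SimplexCategory} (σ : Chain E k)
    (u : ∀ i, b ⟶ P.obj (σ.obj i)) (hu : ∀ i j h, u i ≫ P.map (σ.map i j h) = u j) :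
    Chain (Un P b) k where
  obj i := ⟨σ.obj i, u i⟩
  map i j h := ⟨σ.map i j h, hu i j h⟩
  map_id i := Subtype.ext (σ.map_id i)
  map_comp i j l h h' := Subtype.ext (σ.map_comp i j l h h')

lemma unChain_congr {P : E ⥤ A} {b : A} {k : SimplexCategory} (σ : Chain E k)
    (u u' : ∀ i, b ⟶ P.obj (σ.obj i)) (hu : ∀ i j h, u i ≫ P.map (σ.map i j h) = u j)
    (hu' : ∀ i j h, u' i ≫ P.map (σ.map i j h) = u' j) (h : ∀ i, u i = u' i) :
    unChain σ u hu = unChain σ u' hu' := by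
  obtain rfl : u = u' := funext h
  rfl

lemma comp_map_zero {P : E ⥤ A} {b : A} {k : SimplexCategory} (σ : Chain E k)
    (u : b ⟶ P.obj (σ.obj 0)) (i j : Fin (k.len + 1)) (h : i ≤ j) :
    (u ≫ P.map (σ.map 0 i (Fin.zero_le _))) ≫ P.map (σ.map i j h) =
      u ≫ P.map (σ.map 0 j (Fin.zero_le _)) := by
  rw [Category.assoc, ← P.map_comp, σ.map_comp]

/-- The homotopy colimit of representables at `b` is the nerve of the comma category. -/
def toUn (P : E ⥤ A) (b : A) : (Hoco (P ⋙ yo A)).obj (op b) ≅ Nv (Un P b) where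
  hom :=
    { app := fun k => ↾ fun (w : HS (P ⋙ yo A) (op b) k) =>
        unChain w.σ (fun i => (w.x : b ⟶ P.obj (w.σ.obj 0)) ≫ P.map (w.σ.map 0 i (Fin.zero_le _)))
          (fun i j h => comp_map_zero w.σ _ i j h)
      naturality := fun k l α => by
        ext (w : HS (P ⋙ yo A) (op b) k)
        refine unChain_congr _ _ _ _ _ fun i => ?_
        exact comp_map_zero (P := P) w.σ (w.x : b ⟶ P.obj (w.σ.obj 0)) _ _ _ }
  inv :=
    { app := fun k => ↾ fun (τ : Chain (Un P b) k.unop) =>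
        (⟨τ.push (Un.toE P b), (τ.obj 0).u⟩ : HS (P ⋙ yo A) (op b) k)
      naturality := fun k l α => by
        ext (τ : Chain (Un P b) k.unop)
        refine congrArg (HS.mk _) ?_
        exact ((τ.map 0 _ (Fin.zero_le _)).2).symm }
  hom_inv_id := by
    ext k (w : HS (P ⋙ yo A) (op b) k)
    refine congrArg (HS.mk w.σ) ?_
    show (w.x : b ⟶ P.obj (w.σ.obj 0)) ≫ P.map (w.σ.map 0 0 _) = w.x
    rw [w.σ.map_id, P.map_id]
    exact Category.comp_id (obj := A) _
  inv_hom_id := by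
    ext k (τ : Chain (Un P b) k.unop)
    refine (unChain_congr (τ.push (Un.toE P b)) _ (fun i => (τ.obj i).u) _
      (fun i j h => (τ.map i j h).2) fun i => ?_).trans ?_
    · exact (τ.map 0 i (Fin.zero_le _)).2
    · rfl

end Under

end Pool.Agent.Helper64.FLCan
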